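import Pool.Agent.L7h3.BK.Stm

/-!
# Project BK: the bijection of the cones
-/

set_option autoImplicit false

namespace Pool.Agent.L7h1.BK

open Pool.Agent.L7h1.QB (cone)
open Pool.Agent.L7h3.BK

/-- **BK-CON** -/
theorem s_CON : S_CON := by
  intro κ _ m a d c hc
  unfold cone
  congr 1
  · refine Nat.card_congr
      { toFun := fun p => ⟨(c * p.1.1, p.1.2.1, p.1.2.2 / c), ?_, ?_⟩
        invFun := fun p => ⟨(p.1.1 / c, p.1.2.1, c * p.1.2.2), ?_, ?_⟩
        left_inv := fun p => ?_
        right_inv := fun p => ?_ }
    · intro h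
      apply p.2.1
      have h1 := congrArg Prod.fst h
      have h2 := congrArg Prod.snd h
      simp only [Prod.fst_zero, Prod.snd_zero] at h1 h2
      refine Prod.ext h1 ?_
      rcases div_eq_zero_iff.1 h2 with h3 | h3
      · exact h3
      · exact absurd h3 hc
    · have h := p.2.2
      simp only [mul_assoc]
      rw [← Finset.mul_sum, h]
      field_simp
    · intro h
      apply p.2.1
      have h1 := congrArg Prod.fst h
      have h2 := congrArg Prod.snd h
      simp only [Prod.fst_zero, Prod.snd_zero] at h1 h2
      refine Prod.ext h1 ?_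
      rcases mul_eq_zero.1 h2 with h3 | h3
      · exact absurd h3 hc
      · exact h3
    · have h := p.2.2
      simp only [mul_assoc] at h
      rw [← Finset.mul_sum] at h
      have h1 : ∑ j, a j * p.1.2.1 j ^ 2 = (p.1.1 ^ 3 + d * c ^ 2 * p.1.1) * p.1.2.2 ^ 2 / c := by
        rw [eq_div_iff hc, mul_comm, h]
        ring
      rw [h1]
      field_simp
    · apply Subtype.ext
      refine Prod.ext ?_ (Prod.ext rfl ?_)
      · exact mul_div_cancel_left₀ _ hc
      · exact mul_div_cancel₀ _ hc
    · apply Subtype.ext
      refine Prod.ext ?_ (Prod.ext rfl ?_)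
      · exact mul_div_cancel₀ _ hc
      · exact mul_div_cancel_left₀ _ hc
  · refine Nat.card_congr (Equiv.subtypeEquivRight fun p => ?_)
    refine and_congr_right fun _ => ?_
    simp only [mul_assoc]
    rw [← Finset.mul_sum, mul_eq_zero]
    exact ⟨Or.inr, fun h => h.resolve_left hc⟩

end Pool.Agent.L7h1.BK
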