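import Pool.Agent.L7h3.BK.Stm
import Pool.Agent.L7h3.MR.Lg

/-!
# Project BK: the Euler product from the odd places
-/

set_option autoImplicit false
set_option linter.unusedSectionVars false
set_option linter.unusedVariables false

open scoped Classical

namespace Pool.Agent.L7h1.BK

open Finset NumberField IsDedekindDomain IsDedekindDomain.HeightOneSpectrum
open Pool.Agent.W189.NF (aV eV)
open Pool.Agent.H921R2.TatePole (nm two_le_nm)
open Pool.Agent.Y696 (HBd)
open Pool.Agent.L7h1.QB (cone cub loc loc_ne nm_ne fin_mem exists_alpha)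
open Pool.Agent.L7h3.QD (CoL)
open Pool.Agent.L7h3.MQ (Fac)
open Pool.Agent.Y715.Z (q4)
open Pool.Agent.L7h3.BK

variable {K : Type} [Field K] [NumberField K]

/-- the Euler product without finitely many factors, shifted -/
theorem euler' {d : 𝓞 K} (hd : d ≠ 0) (hco : CoL (d : K)) (m : ℕ) {B : 𝓞 K} (hB : B ≠ 0)
    (b2 : ∀ v : HeightOneSpectrum (𝓞 K), B ∉ v.asIdeal → (2 : 𝓞 K) ∉ v.asIdeal) :
    ∃ L : ℂ → ℂ, Differentiable ℂ L ∧ L (m + 1) ≠ 0 ∧ ∀ s : ℂ, m + 3 / 2 < s.re →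
      HasProd (fun v : {v : HeightOneSpectrum (𝓞 K) // B ∉ v.asIdeal} =>
        (loc (q4 (d : K)) v.1 ((nm v.1 : ℂ) ^ m * (nm v.1 : ℂ) ^ (-s)))⁻¹) (L s) := by
  obtain ⟨Lf, h1, h3, h2⟩ := hco
  have hd' : (d : K) ≠ 0 := by exact_mod_cast hd
  have hfin := fin_mem (K := K) hB
  have hshift : ∀ (v : HeightOneSpectrum (𝓞 K)) (s : ℂ),
      (nm v : ℂ) ^ (-(s - m)) = (nm v : ℂ) ^ m * (nm v : ℂ) ^ (-s) := by
    intro v s
    rw [show -(s - (m : ℂ)) = (m : ℂ) + -s by ring, Complex.cpow_add _ _ (nm_ne v),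
      Complex.cpow_natCast]
  have hsub : Differentiable ℂ (fun s : ℂ => s - (m : ℂ)) := differentiable_id.sub_const _
  set G : ℂ → HeightOneSpectrum (𝓞 K) → ℂ := fun s v =>
    if (2 : 𝓞 K) ∈ v.asIdeal then 1 else loc (q4 (d : K)) v ((nm v : ℂ) ^ (-(s - m))) with hG
  have hG0 : ∀ s v, 1 / 2 < (s - (m : ℂ)).re → G s v ≠ 0 := by
    intro s v hs
    rw [hG]
    simp only
    split_ifs with h
    · exact one_ne_zero
    · exact loc_ne (Pool.Agent.L7h3.MR.hbd_gen h hd') hs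
  refine ⟨fun s => Lf (s - m) * ∏ v ∈ hfin.toFinset, G s v, ?_, ?_, fun s hs => ?_⟩
  · refine (h1.comp hsub).mul (Differentiable.fun_finsetProd fun v _ => ?_)
    have h4 : Differentiable ℂ (fun s : ℂ => (nm v : ℂ) ^ (-(s - m))) := by
      intro s
      exact DifferentiableAt.const_cpow (by fun_prop) (Or.inl (nm_ne v))
    rw [hG]
    simp only
    split_ifs with h
    · exact differentiable_const _
    · unfold loc
      exact ((differentiable_const _).sub ((differentiable_const _).mul h4)).add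
        ((differentiable_const _).mul (h4.pow 2))
  · show Lf ((m : ℂ) + 1 - m) * _ ≠ 0
    have e1 : (m : ℂ) + 1 - m = 1 := by ring
    rw [e1]
    exact mul_ne_zero h3 (Finset.prod_ne_zero_iff.2 fun v _ => hG0 _ v (by norm_num))
  · have hre : 3 / 2 < (s - (m : ℂ)).re := by
      rw [Complex.sub_re, Complex.natCast_re]
      linarith
    have h5 := h2 _ hre
    have h6 : HasProd (fun v : HeightOneSpectrum (𝓞 K) => if B ∈ v.asIdeal then G s v else 1)
        (∏ v ∈ hfin.toFinset, if B ∈ v.asIdeal then G s v else 1) := by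
      refine hasProd_prod_of_ne_finset_one fun v hv => ?_
      rw [if_neg]
      intro h
      exact hv (hfin.mem_toFinset.2 h)
    have h7 : (∏ v ∈ hfin.toFinset, if B ∈ v.asIdeal then G s v else 1) =
        ∏ v ∈ hfin.toFinset, G s v :=
      Finset.prod_congr rfl fun p hp => if_pos (hfin.mem_toFinset.1 hp)
    rw [h7] at h6
    have h8 : HasProd (fun v : {v : HeightOneSpectrum (𝓞 K) | B ∉ v.asIdeal} =>
        (loc (q4 (d : K)) v.1 ((nm v.1 : ℂ) ^ (-(s - m))))⁻¹)
        (Lf (s - m) * ∏ v ∈ hfin.toFinset, G s v) := by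
      rw [← Function.comp_def (f := fun v : HeightOneSpectrum (𝓞 K) =>
        (loc (q4 (d : K)) v ((nm v : ℂ) ^ (-(s - m))))⁻¹), hasProd_subtype_iff_mulIndicator]
      refine (h5.mul h6).congr_fun fun v => ?_
      by_cases hv : B ∈ v.asIdeal
      · rw [if_pos hv, Set.mulIndicator_of_notMem (by simpa using hv)]
        rw [hG]
        simp only
        split_ifs with h
        · rw [mul_one]
        · unfold Fac
          exact (inv_mul_cancel₀ (loc_ne (Pool.Agent.L7h3.MR.hbd_gen h hd') (by linarith))).symm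
      · rw [if_neg hv, Set.mulIndicator_of_mem (by simpa using hv), mul_one, if_neg (b2 v hv)]
        rfl
    exact h8.congr_fun fun v => by rw [← hshift]

/-- **BK-EUL** -/
theorem s_EUL : S_EUL := by
  intro K _ _ d hd hco m a c hc B hB b2 b3 b4
  have hd' : (d : K) ≠ 0 := by exact_mod_cast hd
  obtain ⟨L, e1, e2, e3⟩ := euler' hd hco m hB b2
  set W : WeierstrassCurve (𝓞 K) := ⟨0, 0, 0, d, 0⟩ with hW
  have hWK : W.map (algebraMap (𝓞 K) K) = q4 (d : K) := by
    rw [hW]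
    unfold q4 WeierstrassCurve.map
    simp
  have hΔ : W.Δ = -64 * d ^ 3 := by
    rw [hW]
    unfold WeierstrassCurve.Δ WeierstrassCurve.b₂ WeierstrassCurve.b₄ WeierstrassCurve.b₆
      WeierstrassCurve.b₈
    ring
  have hΔv : ∀ v : HeightOneSpectrum (𝓞 K), B ∉ v.asIdeal → W.Δ ∉ v.asIdeal := by
    intro v hv h
    rw [hΔ] at h
    have h64 : (-64 : 𝓞 K) = -(2 ^ 6) := by norm_num
    rcases v.isPrime.mem_or_mem h with h | h
    · rw [h64, neg_mem_iff] at h
      exact b2 v hv (v.isPrime.mem_of_pow_mem _ h)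
    · exact b3 v hv (v.isPrime.mem_of_pow_mem _ h)
  have hcub : ∀ v : HeightOneSpectrum (𝓞 K), cub (W.map (Ideal.Quotient.mk v.asIdeal)) =
      fun t => t ^ 3 + Ideal.Quotient.mk v.asIdeal d * t := by
    intro v
    funext t
    unfold cub WeierstrassCurve.map
    simp [hW]
  have hch : ∀ v : HeightOneSpectrum (𝓞 K), ∃ α : ℂ, B ∉ v.asIdeal →
      ‖α‖ ^ 2 = (nm v : ℝ) ^ (2 * m + 1) ∧
      (cone (𝓞 K ⧸ v.asIdeal) m (fun i => Ideal.Quotient.mk v.asIdeal (a i))
        (fun t => t ^ 3 + Ideal.Quotient.mk v.asIdeal d * t) : ℂ) =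
        ((nm v : ℂ) - 1) * ((1 + nm v) * ∑ l ∈ range (2 * m + 1), (nm v : ℂ) ^ l -
          (α + (starRingEnd ℂ) α)) ∧
      ∀ X : ℂ, loc (q4 (d : K)) v ((nm v : ℂ) ^ m * X) =
        (1 - α * X) * (1 - (starRingEnd ℂ) α * X) := by
    intro v
    by_cases h : B ∈ v.asIdeal
    · exact ⟨0, fun h' => absurd h h'⟩
    · have hE := Pool.Agent.L7h3.MR.hbd_gen (b2 v h) hd'
      rw [← hWK] at hE
      obtain ⟨α, hα⟩ := exists_alpha (W := W) rfl rfl hE (b2 v h) (hΔv v h) m
        (fun i => b4 v i h) hc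
      rw [hWK, hcub] at hα
      exact ⟨α, fun _ => hα⟩
  choose α hα using hch
  refine ⟨L, e1, e2, α, fun v hv => ⟨(hα v hv).1, (hα v hv).2.1⟩, fun s hs => ?_⟩
  refine (e3 s hs).congr_fun fun v => ?_
  rw [(hα v.1 v.2).2.2]

end Pool.Agent.L7h1.BK
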